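import Pool.Agent.Helper38.ZS.Stmts

/-!
# Projection matrices of subspaces, leverages
-/

namespace Pool.Agent.Helper61.NF

open Finset Pool.Agent.Helper38.ZS
open scoped Classical

noncomputable section

/-- the orthogonal projection matrix of a subspace -/
theorem exists_proj {I : Type} [Fintype I] (W : Submodule ℝ (I → ℝ)) :
    ∃ P : I → I → ℝ, IsPr P ∧ (∀ f ∈ W, ap P f = f) ∧ ∀ i, (fun k => P k i) ∈ W := by
  obtain ⟨U, hU⟩ : ∃ U : Submodule ℝ (EuclideanSpace ℝ I),
      ∀ x : EuclideanSpace ℝ I, x ∈ U ↔ (fun i => x i) ∈ W :=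
    ⟨W.comap (WithLp.linearEquiv 2 ℝ (I → ℝ)).toLinearMap, fun x => Iff.rfl⟩
  obtain ⟨T, hT⟩ : ∃ T : EuclideanSpace ℝ I →L[ℝ] EuclideanSpace ℝ I, T = U.starProjection :=
    ⟨_, rfl⟩
  have hsym : ∀ x y : EuclideanSpace ℝ I, inner ℝ (T x) y = inner ℝ x (T y) := by
    intro x y
    rw [hT]
    exact U.inner_starProjection_left_eq_right x y
  have hmem : ∀ x, T x ∈ U := by
    intro x
    rw [hT]
    exact U.starProjection_apply_mem x
  have hfix : ∀ x ∈ U, T x = x := by
    intro x hx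
    rw [hT]
    exact Submodule.starProjection_eq_self_iff.mpr hx
  have hap : ∀ x : EuclideanSpace ℝ I, ∀ i,
      ∑ k, T (EuclideanSpace.single k (1 : ℝ)) i * x k = T x i := by
    intro x i
    have h1 : x = ∑ k, x k • EuclideanSpace.single k (1 : ℝ) := by
      ext j
      simp [Pi.single_apply]
    conv_rhs => rw [h1, map_sum]
    rw [WithLp.ofLp_sum, Finset.sum_apply]
    apply Finset.sum_congr rfl
    intro k _
    rw [map_smul]
    simp [mul_comm]
  refine ⟨fun i j => T (EuclideanSpace.single j (1 : ℝ)) i, ⟨?_, ?_⟩, ?_, ?_⟩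
  · intro i j
    have h1 := hsym (EuclideanSpace.single j (1 : ℝ)) (EuclideanSpace.single i (1 : ℝ))
    rw [EuclideanSpace.inner_single_left, real_inner_comm, EuclideanSpace.inner_single_left] at h1
    simpa using h1
  · intro i j
    have h1 := hap (T (EuclideanSpace.single j (1 : ℝ))) i
    rw [hfix _ (hmem _)] at h1
    exact h1
  · intro f hf
    funext i
    have h1 := hap (WithLp.toLp 2 f) i
    rw [hfix _ ((hU _).mpr hf)] at h1
    exact h1
  · intro i
    exact (hU _).mp (hmem _)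

/-- the leverage from the variational bound -/
theorem diag_le {I : Type} [Fintype I] (W : Submodule ℝ (I → ℝ)) (P : I → I → ℝ) (hP : IsPr P)
    (hW : ∀ i, (fun k => P k i) ∈ W) (i : I) (r : ℝ) (hr : 0 ≤ r)
    (h : ∀ f ∈ W, f i ^ 2 ≤ r * ∑ k, f k ^ 2) : P i i ≤ r := by
  have h1 := h _ (hW i)
  have h2 : ∑ k, P k i ^ 2 = P i i := by
    rw [← hP.idem i i]
    apply Finset.sum_congr rfl
    intro k _
    rw [hP.symm i k]
    ring
  rw [h2] at h1
  have h3 : 0 ≤ P i i := by
    rw [← h2]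
    exact Finset.sum_nonneg (fun k _ => sq_nonneg _)
  by_contra h5
  push Not at h5
  nlinarith

/-- Cauchy-Schwarz for a fixed vector -/
theorem sq_le_diag {I : Type} [Fintype I] (P : I → I → ℝ) (hP : IsPr P) (f : I → ℝ)
    (hf : ap P f = f) (i : I) : f i ^ 2 ≤ P i i * ∑ k, f k ^ 2 := by
  have h1 : f i = ∑ k, P i k * f k := (congrFun hf i).symm
  have h2 : ∑ k, P i k ^ 2 = P i i := by
    rw [← hP.idem i i]
    apply Finset.sum_congr rfl
    intro k _
    rw [hP.symm k i]
    ring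
  rw [← h2]
  conv_lhs => rw [h1]
  exact Finset.sum_mul_sq_le_sq_mul_sq _ _ _

end

end Pool.Agent.Helper61.NF
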