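import Pool.Agent.Helper28.NF.Stmts
import Pool.Agent.Helper61.NF.Proj

/-!
# Zonotope signing with means from zonotope signing without means

Scaling of the unsigned coordinates, and rounding bit by bit.
-/

namespace Pool.Agent.Helper61.NF

open Finset Pool.Agent.Helper38.ZS
open scoped Classical

noncomputable section

variable {I : Type} [Fintype I]

theorem ap_add (P : I → I → ℝ) (f g : I → ℝ) : ap P (f + g) = ap P f + ap P g := by
  funext i
  simp only [ap, Pi.add_apply, mul_add, Finset.sum_add_distrib]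

theorem ap_smul (P : I → I → ℝ) (c : ℝ) (f : I → ℝ) : ap P (c • f) = c • ap P f := by
  funext i
  simp only [ap, Pi.smul_apply, smul_eq_mul, Finset.mul_sum]
  apply Finset.sum_congr rfl
  intro k _
  ring

/-- the scaled range -/
def scW (P : I → I → ℝ) (d : I → ℝ) : Submodule ℝ (I → ℝ) where
  carrier := {g | ∃ f, ap P f = f ∧ ∀ i, g i = d i * f i}
  add_mem' := by
    rintro a b ⟨f, hf, hf'⟩ ⟨g, hg, hg'⟩
    refine ⟨f + g, by rw [ap_add, hf, hg], fun i => ?_⟩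
    rw [Pi.add_apply, Pi.add_apply, hf', hg']
    ring
  zero_mem' := ⟨0, by
    funext i
    simp [ap], fun i => by simp⟩
  smul_mem' := by
    rintro c a ⟨f, hf, hf'⟩
    refine ⟨c • f, by rw [ap_smul, hf], fun i => ?_⟩
    rw [Pi.smul_apply, Pi.smul_apply, hf', smul_eq_mul, smul_eq_mul]
    ring

/-- signing of a subset of the small coordinates -/
theorem sign_sub (hs : ST_SIGN) (β : ℝ) (hβ : 0 < β) (hβ1 : β ≤ 1) :
    ∃ η L : ℝ, 0 < η ∧ η ≤ 1 ∧ 1 ≤ L ∧
      ∀ (I : Type) [Fintype I] (P : I → I → ℝ) (X U : Finset I), IsPr P → (∀ i ∈ X, P i i ≤ η) →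
        U ⊆ X → ∃ ξ : I → ℝ, (∀ i, ξ i = 1 ∨ ξ i = -1) ∧
          ∀ f : I → ℝ, ap P f = f →
            ∑ i ∈ U, ξ i * f i ≤ β * ∑ i ∈ X, |f i| + L * ∑ i ∈ Xᶜ, |f i| := by
  obtain ⟨η0, L, hη0, hL, H⟩ := hs β hβ hβ1
  have hm : 0 < min η0 1 := lt_min hη0 one_pos
  refine ⟨min η0 1 * (β / 2) ^ 2, L, by positivity, ?_, hL, ?_⟩
  · have h1 : min η0 1 ≤ 1 := min_le_right _ _
    have h2 : (β / 2) ^ 2 ≤ 1 := by nlinarith
    have h3 : 0 ≤ (β / 2) ^ 2 := sq_nonneg _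
    nlinarith
  · intro I _ P X U hP hX hU
    obtain ⟨c, hc⟩ : ∃ c, c = β / 2 := ⟨_, rfl⟩
    have hc0 : 0 < c := by rw [hc]; linarith
    have hc1 : c ≤ 1 := by rw [hc]; linarith
    obtain ⟨d, hd⟩ : ∃ d : I → ℝ, d = fun i => if i ∈ X \ U then c else 1 := ⟨_, rfl⟩
    have hd1 : ∀ i, i ∈ X \ U → d i = c := by
      intro i hi
      rw [hd]
      simp only [hi, if_true]
    have hd2 : ∀ i, i ∉ X \ U → d i = 1 := by
      intro i hi
      rw [hd]
      simp only [hi, if_false]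
    have hd3 : ∀ i, c ≤ d i ∧ d i ≤ 1 := by
      intro i
      by_cases hi : i ∈ X \ U
      · rw [hd1 i hi]
        exact ⟨le_refl _, hc1⟩
      · rw [hd2 i hi]
        exact ⟨hc1, le_refl _⟩
    obtain ⟨P', hP', hfix, hcol⟩ := exists_proj (scW P d)
    have hlev : ∀ i ∈ X, P' i i ≤ η0 := by
      intro i hi
      apply diag_le (scW P d) P' hP' hcol i η0 hη0.le
      rintro g ⟨f, hf, hg⟩
      have h1 := sq_le_diag P hP f hf i
      have h2 : 0 ≤ ∑ k, f k ^ 2 := Finset.sum_nonneg (fun k _ => sq_nonneg _)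
      have h3 : c ^ 2 * ∑ k, f k ^ 2 ≤ ∑ k, g k ^ 2 := by
        rw [Finset.mul_sum]
        apply Finset.sum_le_sum
        intro k _
        rw [hg k, mul_pow]
        have := hd3 k
        have h4 : c ^ 2 ≤ d k ^ 2 := by nlinarith
        nlinarith [sq_nonneg (f k)]
      have h4 : g i ^ 2 ≤ f i ^ 2 := by
        rw [hg i, mul_pow]
        have := hd3 i
        have h5 : d i ^ 2 ≤ 1 := by nlinarith
        nlinarith [sq_nonneg (f i)]
      have h5 := hX i hi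
      rw [← hc] at h5
      have h6 : min η0 1 ≤ η0 := min_le_left _ _
      calc g i ^ 2 ≤ P i i * ∑ k, f k ^ 2 := h4.trans h1
        _ ≤ (min η0 1 * c ^ 2) * ∑ k, f k ^ 2 := mul_le_mul_of_nonneg_right h5 h2
        _ = min η0 1 * (c ^ 2 * ∑ k, f k ^ 2) := by ring
        _ ≤ min η0 1 * ∑ k, g k ^ 2 := mul_le_mul_of_nonneg_left h3 hm.le
        _ ≤ η0 * ∑ k, g k ^ 2 := mul_le_mul_of_nonneg_right h6
            (Finset.sum_nonneg (fun k _ => sq_nonneg _))
    obtain ⟨ξ, hξ, hH⟩ := H I P' X hP' hlev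
    refine ⟨ξ, hξ, fun f hf => ?_⟩
    have h1 := hH (fun i => d i * f i) (hfix _ ⟨f, hf, fun i => rfl⟩)
    have hsplit : ∀ F : I → ℝ, ∑ i ∈ X, F i = ∑ i ∈ U, F i + ∑ i ∈ X \ U, F i := by
      intro F
      rw [add_comm]
      exact (Finset.sum_sdiff hU).symm
    unfold l1 at h1
    rw [hsplit, hsplit] at h1
    have e1 : ∑ i ∈ U, ξ i * (d i * f i) = ∑ i ∈ U, ξ i * f i := by
      apply Finset.sum_congr rfl
      intro i hi
      rw [hd2 i (fun h => (Finset.mem_sdiff.mp h).2 hi)]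
      ring
    have e2 : ∑ i ∈ X \ U, ξ i * (d i * f i) = c * ∑ i ∈ X \ U, ξ i * f i := by
      rw [Finset.mul_sum]
      apply Finset.sum_congr rfl
      intro i hi
      rw [hd1 i hi]
      ring
    have e3 : ∑ i ∈ U, |d i * f i| = ∑ i ∈ U, |f i| := by
      apply Finset.sum_congr rfl
      intro i hi
      rw [hd2 i (fun h => (Finset.mem_sdiff.mp h).2 hi), one_mul]
    have e4 : ∑ i ∈ X \ U, |d i * f i| = c * ∑ i ∈ X \ U, |f i| := by
      rw [Finset.mul_sum]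
      apply Finset.sum_congr rfl
      intro i hi
      rw [hd1 i hi, abs_mul, abs_of_pos hc0]
    have e5 : ∑ i ∈ Xᶜ, |d i * f i| = ∑ i ∈ Xᶜ, |f i| := by
      apply Finset.sum_congr rfl
      intro i hi
      rw [hd2 i (fun h => (Finset.mem_compl.mp hi) (Finset.mem_sdiff.mp h).1), one_mul]
    rw [e1, e2, e3, e4, e5] at h1
    have e6 : -∑ i ∈ X \ U, |f i| ≤ ∑ i ∈ X \ U, ξ i * f i := by
      rw [← Finset.sum_neg_distrib]
      apply Finset.sum_le_sum
      intro i _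
      rcases hξ i with h | h
      · rw [h, one_mul]
        exact neg_abs_le _
      · rw [h]
        have := le_abs_self (f i)
        linarith
    have e7 : 0 ≤ ∑ i ∈ X \ U, |f i| := Finset.sum_nonneg (fun i _ => abs_nonneg _)
    rw [hsplit (fun i => |f i|)]
    have e8 : c * (1 + β) ≤ β := by
      rw [hc]
      nlinarith
    nlinarith

/-- bitwise rounding: grid points -/
theorem bits (P : I → I → ℝ) (X : Finset I) (β L : ℝ)
    (H : ∀ U : Finset I, U ⊆ X → ∃ ξ : I → ℝ, (∀ i, ξ i = 1 ∨ ξ i = -1) ∧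
      ∀ f : I → ℝ, ap P f = f →
        ∑ i ∈ U, ξ i * f i ≤ β * ∑ i ∈ X, |f i| + L * ∑ i ∈ Xᶜ, |f i|) :
    ∀ (K : ℕ) (n : I → ℤ), (∀ i, 0 ≤ n i ∧ n i ≤ 2 ^ K) →
      ∃ ξ : I → ℝ, (∀ i, ξ i = 1 ∨ ξ i = -1) ∧
        ∀ f : I → ℝ, ap P f = f →
          ∑ i ∈ X, (ξ i - (-1 + 2 * (n i : ℝ) / 2 ^ K)) * f i
            ≤ 2 * (1 - 1 / 2 ^ K) * (β * ∑ i ∈ X, |f i| + L * ∑ i ∈ Xᶜ, |f i|) := by
  intro K
  induction K with
  | zero =>
    intro n hn
    refine ⟨fun i => -1 + 2 * (n i : ℝ), fun i => ?_, fun f _ => ?_⟩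
    · have h1 := hn i
      have h2 : n i = 0 ∨ n i = 1 := by
        have h3 : n i ≤ 1 := by simpa using h1.2
        omega
      rcases h2 with h | h
      · right
        simp only [h]
        norm_num
      · left
        simp only [h]
        norm_num
    · simp
  | succ K ih =>
    intro n hn
    obtain ⟨ζ, hζ, hζ'⟩ := H (X.filter (fun i => ¬ Even (n i))) (Finset.filter_subset _ _)
    -- the sign as an integer
    obtain ⟨e, he⟩ : ∃ e : I → ℤ, e = fun i => if Even (n i) then 0 else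
        (if ζ i = 1 then 1 else -1) := ⟨_, rfl⟩
    have he1 : ∀ i, Even (n i) → e i = 0 := by
      intro i hi
      rw [he]
      simp only [hi, if_true]
    have he2 : ∀ i, ¬ Even (n i) → ((e i : ℤ) : ℝ) = ζ i ∧ (e i = 1 ∨ e i = -1) := by
      intro i hi
      rw [he]
      simp only [hi, if_false]
      rcases hζ i with h | h
      · rw [h]
        simp
      · rw [h]
        norm_num
    have he3 : ∀ i, ∃ q : ℤ, n i + e i = 2 * q ∧ 0 ≤ q ∧ q ≤ 2 ^ K := by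
      intro i
      have h1 := hn i
      rw [pow_succ] at h1
      by_cases hi : Even (n i)
      · obtain ⟨q, hq⟩ := hi
        refine ⟨q, ?_, ?_, ?_⟩
        · rw [he1 i ⟨q, hq⟩]
          omega
        · omega
        · omega
      · obtain ⟨q, hq⟩ := Int.not_even_iff_odd.mp hi
        rcases (he2 i hi).2 with h | h
        · refine ⟨q + 1, ?_, ?_, ?_⟩
          · omega
          · omega
          · omega
        · refine ⟨q, ?_, ?_, ?_⟩
          · omega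
          · omega
          · omega
    choose q hq1 hq2 hq3 using he3
    obtain ⟨ξ, hξ, hξ'⟩ := ih q (fun i => ⟨hq2 i, hq3 i⟩)
    refine ⟨ξ, hξ, fun f hf => ?_⟩
    have h1 := hξ' f hf
    have h2 := hζ' f hf
    obtain ⟨A, hA⟩ : ∃ A, A = β * ∑ i ∈ X, |f i| + L * ∑ i ∈ Xᶜ, |f i| := ⟨_, rfl⟩
    rw [← hA] at h1 h2 ⊢
    have hpow : (0 : ℝ) < 2 ^ K := by positivity
    have h3 : ∑ i ∈ X, (ξ i - (-1 + 2 * (n i : ℝ) / 2 ^ (K + 1))) * f i
        = ∑ i ∈ X, (ξ i - (-1 + 2 * (q i : ℝ) / 2 ^ K)) * f i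
          + 1 / 2 ^ K * ∑ i ∈ X.filter (fun i => ¬ Even (n i)), ζ i * f i := by
      rw [Finset.sum_filter, Finset.mul_sum, ← Finset.sum_add_distrib]
      apply Finset.sum_congr rfl
      intro i _
      have h4 : (2 * (q i : ℝ)) = (n i : ℝ) + (e i : ℝ) := by
        have := hq1 i
        exact_mod_cast this.symm
      by_cases hi : Even (n i)
      · have h5 : (e i : ℝ) = 0 := by rw [he1 i hi]; simp
        rw [if_neg (not_not.mpr hi)]
        rw [h5] at h4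
        rw [h4, pow_succ]
        field_simp
        ring
      · rw [if_pos hi, ← (he2 i hi).1, h4, pow_succ]
        field_simp
        ring
    rw [h3]
    have h5 : 1 / 2 ^ K * ∑ i ∈ X.filter (fun i => ¬ Even (n i)), ζ i * f i ≤ 1 / 2 ^ K * A :=
      mul_le_mul_of_nonneg_left h2 (by positivity)
    have h6 : 2 * (1 - 1 / 2 ^ (K + 1)) * A = 2 * (1 - 1 / 2 ^ K) * A + 1 / 2 ^ K * A := by
      rw [pow_succ]
      field_simp
      ring
    rw [h6]
    linarith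

theorem st_signz (hs : ST_SIGN) : Pool.Agent.Helper28.NF.ST_SIGNZ := by
  intro β hβ hβ1
  obtain ⟨η, L, hη, hη1, hL, H⟩ := sign_sub hs (β / 4) (by linarith) (by linarith)
  refine ⟨η, 2 * L, hη, hη1, by linarith, ?_⟩
  intro I _ P X z hP hX hz
  obtain ⟨K, hK⟩ : ∃ K : ℕ, 4 / β < 2 ^ K := pow_unbounded_of_one_lt _ one_lt_two
  have hpow : (0 : ℝ) < 2 ^ K := by positivity
  have hK' : 2 / 2 ^ K ≤ β / 2 := by
    rw [div_lt_iff₀ hβ] at hK
    rw [div_le_iff₀ hpow]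
    linarith
  obtain ⟨ξ, hξ, hξ'⟩ := bits P X (β / 4) L (fun U hU => H I P X U hP hX hU) K
    (fun i => ⌊(z i + 1) * 2 ^ K / 2⌋) (by
      intro i
      have h1 := abs_le.mp (hz i)
      constructor
      · apply Int.floor_nonneg.mpr
        have : 0 ≤ z i + 1 := by linarith
        positivity
      · have h2 : ((⌊(z i + 1) * 2 ^ K / 2⌋ : ℤ) : ℝ) ≤ 2 ^ K := by
          have h3 := Int.floor_le ((z i + 1) * 2 ^ K / 2)
          have h4 : (z i + 1) * 2 ^ K / 2 ≤ 2 ^ K := by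
            have h5 : z i + 1 ≤ 2 := by linarith
            nlinarith
          linarith
        exact_mod_cast h2)
  refine ⟨ξ, hξ, fun f hf => ?_⟩
  have h1 := hξ' f hf
  obtain ⟨a, ha⟩ : ∃ a, a = ∑ i ∈ X, |f i| := ⟨_, rfl⟩
  obtain ⟨b, hb⟩ : ∃ b, b = ∑ i ∈ Xᶜ, |f i| := ⟨_, rfl⟩
  have ha0 : 0 ≤ a := by
    rw [ha]
    exact Finset.sum_nonneg (fun i _ => abs_nonneg _)
  have hb0 : 0 ≤ b := by
    rw [hb]
    exact Finset.sum_nonneg (fun i _ => abs_nonneg _)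
  rw [← ha, ← hb] at h1 ⊢
  have h2 : ∑ i ∈ X, (ξ i - z i) * f i
      = ∑ i ∈ X, (ξ i - (-1 + 2 * ((⌊(z i + 1) * 2 ^ K / 2⌋ : ℤ) : ℝ) / 2 ^ K)) * f i
        + ∑ i ∈ X, ((-1 + 2 * ((⌊(z i + 1) * 2 ^ K / 2⌋ : ℤ) : ℝ) / 2 ^ K) - z i) * f i := by
    rw [← Finset.sum_add_distrib]
    apply Finset.sum_congr rfl
    intro i _
    ring
  have h3 : ∑ i ∈ X, ((-1 + 2 * ((⌊(z i + 1) * 2 ^ K / 2⌋ : ℤ) : ℝ) / 2 ^ K) - z i) * f i
      ≤ 2 / 2 ^ K * a := by
    rw [ha, Finset.mul_sum]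
    apply Finset.sum_le_sum
    intro i _
    have h4 := Int.floor_le ((z i + 1) * 2 ^ K / 2)
    have h5 := Int.lt_floor_add_one ((z i + 1) * 2 ^ K / 2)
    obtain ⟨w, hw⟩ : ∃ w : ℝ, w = ((⌊(z i + 1) * 2 ^ K / 2⌋ : ℤ) : ℝ) := ⟨_, rfl⟩
    rw [← hw] at h4 h5 ⊢
    have h6 : |(-1 + 2 * w / 2 ^ K) - z i| ≤ 2 / 2 ^ K := by
      rw [abs_le]
      constructor
      · rw [neg_le_iff_add_nonneg]
        have : (-1 + 2 * w / 2 ^ K) - z i + 2 / 2 ^ K
            = 2 / 2 ^ K * ((w + 1) - (z i + 1) * 2 ^ K / 2) := by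
          field_simp
          ring
        rw [this]
        have : 0 ≤ (w + 1) - (z i + 1) * 2 ^ K / 2 := by linarith
        positivity
      · have h7 : (-1 + 2 * w / 2 ^ K) - z i = 2 / 2 ^ K * (w - (z i + 1) * 2 ^ K / 2) := by
          field_simp
          ring
        rw [h7]
        have h8 : w - (z i + 1) * 2 ^ K / 2 ≤ 0 := by linarith
        have h9 : 0 ≤ 2 / (2 : ℝ) ^ K := by positivity
        nlinarith
    calc ((-1 + 2 * w / 2 ^ K) - z i) * f i ≤ |((-1 + 2 * w / 2 ^ K) - z i) * f i| := le_abs_self _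
      _ = |(-1 + 2 * w / 2 ^ K) - z i| * |f i| := abs_mul _ _
      _ ≤ 2 / 2 ^ K * |f i| := mul_le_mul_of_nonneg_right h6 (abs_nonneg _)
  rw [h2]
  have h4 : 2 * (1 - 1 / 2 ^ K) * (β / 4 * a + L * b) ≤ 2 * (β / 4 * a + L * b) := by
    have h5 : 0 ≤ 1 / (2 : ℝ) ^ K := by positivity
    have h6 : 0 ≤ β / 4 * a + L * b := by
      have : 0 ≤ L := by linarith
      positivity
    nlinarith
  have h5 : 2 / 2 ^ K * a ≤ β / 2 * a := mul_le_mul_of_nonneg_right hK' ha0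
  linarith

end

end Pool.Agent.Helper61.NF
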