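import Pool.Agent.Helper28.NF.Stmts
import Pool.Agent.Helper61.NF.Proj
import Pool.Agent.Helper92.NF.Cert

/-!
# One step of the assembly
-/

namespace Pool.Agent.Helper61.NF

open Finset Pool.Agent.Helper38.ZS Pool.Agent.Helper28.NF
open scoped Classical

noncomputable section

variable {ι κ : Type} [Fintype ι] [Fintype κ]

/-- the vector of the range -/
def FF (S : κ → Finset ι) (R : κ → ℝ) (w : ι → ℝ) (y : κ → ℝ) : ι ⊕ κ → ℝ
  | Sum.inl v => Real.sqrt (w v) * fv S y v
  | Sum.inr j => Real.sqrt (R j) * y j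

omit [Fintype ι] in
theorem fv_eq (S : κ → Finset ι) (y : κ → ℝ) (v : ι) :
    fv S y v = ∑ j, (if v ∈ S j then 1 else 0) * y j := by
  unfold fv
  apply Finset.sum_congr rfl
  intro j _
  by_cases h : v ∈ S j <;> simp [h]

omit [Fintype ι] in
theorem fv_add (S : κ → Finset ι) (x y : κ → ℝ) (v : ι) :
    fv S (x + y) v = fv S x v + fv S y v := by
  rw [fv_eq, fv_eq, fv_eq, ← Finset.sum_add_distrib]
  apply Finset.sum_congr rfl
  intro j _
  rw [Pi.add_apply]
  ring

omit [Fintype ι] in
theorem fv_smul (S : κ → Finset ι) (c : ℝ) (y : κ → ℝ) (v : ι) :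
    fv S (c • y) v = c * fv S y v := by
  rw [fv_eq, fv_eq, Finset.mul_sum]
  apply Finset.sum_congr rfl
  intro j _
  rw [Pi.smul_apply, smul_eq_mul]
  ring

/-- the bilinear form of the ridge plus Gram matrix -/
theorem GM_form (S : κ → Finset ι) (R : κ → ℝ) (w : ι → ℝ) (hR : ∀ j, 0 < R j)
    (hw : ∀ v, 0 ≤ w v) (x y : κ → ℝ) :
    ∑ j, y j * (GM S R w).mulVec x j = ∑ k, FF S R w x k * FF S R w y k := by
  have h1 : ∀ j, y j * (GM S R w).mulVec x j
      = R j * x j * y j + ∑ v, w v * (if v ∈ S j then 1 else 0) * y j * fv S x v := by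
    intro j
    have e1 : (GM S R w).mulVec x j
        = R j * x j + ∑ v, w v * (if v ∈ S j then 1 else 0) * fv S x v := by
      rw [Matrix.mulVec, dotProduct]
      have e2 : ∀ i, GM S R w j i * x i = (if j = i then R j * x i else 0)
          + ∑ v, w v * (if v ∈ S j then 1 else 0) * ((if v ∈ S i then 1 else 0) * x i) := by
        intro i
        unfold GM
        rw [add_mul, Finset.sum_mul]
        congr 1
        · split_ifs <;> simp
        · apply Finset.sum_congr rfl
          intro v _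
          by_cases h1 : v ∈ S j <;> by_cases h2 : v ∈ S i <;> simp [h1, h2]
      rw [Finset.sum_congr rfl (fun i _ => e2 i), Finset.sum_add_distrib, Finset.sum_ite_eq]
      simp only [Finset.mem_univ, if_true]
      congr 1
      rw [Finset.sum_comm]
      apply Finset.sum_congr rfl
      intro v _
      rw [fv_eq, Finset.mul_sum]
    rw [e1, mul_add, Finset.mul_sum]
    congr 1
    · ring
    · apply Finset.sum_congr rfl
      intro v _
      ring
  rw [Finset.sum_congr rfl (fun j _ => h1 j), Finset.sum_add_distrib, Finset.sum_comm,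
    Fintype.sum_sum_type, add_comm]
  congr 1
  · apply Finset.sum_congr rfl
    intro v _
    show _ = Real.sqrt (w v) * fv S x v * (Real.sqrt (w v) * fv S y v)
    have e3 : Real.sqrt (w v) * fv S x v * (Real.sqrt (w v) * fv S y v)
        = w v * fv S x v * fv S y v := by
      have := Real.mul_self_sqrt (hw v)
      linear_combination (fv S x v * fv S y v) * this
    rw [e3, fv_eq S y v, Finset.mul_sum]
    apply Finset.sum_congr rfl
    intro j _
    ring
  · apply Finset.sum_congr rfl
    intro j _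
    show _ = Real.sqrt (R j) * x j * (Real.sqrt (R j) * y j)
    have := Real.mul_self_sqrt (hR j).le
    linear_combination (-(x j * y j)) * this

theorem GM_unit (S : κ → Finset ι) (R : κ → ℝ) (w : ι → ℝ) (hR : ∀ j, 0 < R j)
    (hw : ∀ v, 0 ≤ w v) : IsUnit (GM S R w).det := by
  rw [isUnit_iff_ne_zero]
  intro h0
  obtain ⟨x, hx, hz⟩ := Matrix.exists_mulVec_eq_zero_iff.mpr h0
  have h1 := GM_form S R w hR hw x x
  rw [hz] at h1
  simp only [Pi.zero_apply, mul_zero, Finset.sum_const_zero] at h1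
  have h2 : ∀ k, FF S R w x k * FF S R w x k = 0 := by
    intro k
    exact (Finset.sum_eq_zero_iff_of_nonneg (fun k _ => mul_self_nonneg _)).mp h1.symm k
      (Finset.mem_univ k)
  apply hx
  funext j
  have h3 := mul_self_eq_zero.mp (h2 (Sum.inr j))
  have h4 : Real.sqrt (R j) * x j = 0 := h3
  have h5 : Real.sqrt (R j) ≠ 0 := (Real.sqrt_pos.mpr (hR j)).ne'
  exact (mul_eq_zero.mp h4).resolve_left h5

/-- the leverage dominates the functional -/
theorem fv_sq_le (S : κ → Finset ι) (R : κ → ℝ) (w : ι → ℝ) (hR : ∀ j, 0 < R j)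
    (hw : ∀ v, 0 ≤ w v) (u : ι) (y : κ → ℝ) :
    fv S y u ^ 2 ≤ lev S R w u * ∑ k, FF S R w y k ^ 2 := by
  obtain ⟨a, ha⟩ : ∃ a : κ → ℝ, a = fun j => if u ∈ S j then 1 else 0 := ⟨_, rfl⟩
  obtain ⟨x, hx⟩ : ∃ x, x = (GM S R w)⁻¹.mulVec a := ⟨_, rfl⟩
  have h1 : (GM S R w).mulVec x = a := by
    rw [hx, Matrix.mulVec_mulVec, Matrix.mul_nonsing_inv _ (GM_unit S R w hR hw),
      Matrix.one_mulVec]
  have h2 : lev S R w u = ∑ k, FF S R w x k ^ 2 := by
    have e1 := GM_form S R w hR hw x x
    rw [h1] at e1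
    have e2 : ∑ k, FF S R w x k ^ 2 = ∑ k, FF S R w x k * FF S R w x k := by
      apply Finset.sum_congr rfl
      intro k _
      ring
    rw [e2, ← e1]
    unfold lev
    apply Finset.sum_congr rfl
    intro i _
    rw [hx, Matrix.mulVec, dotProduct, Finset.sum_mul]
    apply Finset.sum_congr rfl
    intro j _
    rw [ha]
    by_cases h1 : u ∈ S i <;> by_cases h2 : u ∈ S j <;> simp [h1, h2]
  have h3 : fv S y u = ∑ k, FF S R w x k * FF S R w y k := by
    rw [← GM_form S R w hR hw x y, h1, fv_eq]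
    apply Finset.sum_congr rfl
    intro j _
    rw [ha]
    ring
  rw [h2, h3]
  exact Finset.sum_mul_sq_le_sq_mul_sq _ _ _

/-- the range as a subspace -/
def ranW (S : κ → Finset ι) (R : κ → ℝ) (w : ι → ℝ) : Submodule ℝ (ι ⊕ κ → ℝ) where
  carrier := {g | ∃ y, g = FF S R w y}
  add_mem' := by
    rintro a b ⟨x, rfl⟩ ⟨y, rfl⟩
    refine ⟨x + y, ?_⟩
    funext k
    rcases k with v | j
    · show Real.sqrt (w v) * fv S x v + Real.sqrt (w v) * fv S y v
        = Real.sqrt (w v) * fv S (x + y) v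
      rw [fv_add]
      ring
    · show Real.sqrt (R j) * x j + Real.sqrt (R j) * y j = Real.sqrt (R j) * (x + y) j
      rw [Pi.add_apply]
      ring
  zero_mem' := ⟨0, by
    funext k
    rcases k with v | j
    · show (0 : ℝ) = Real.sqrt (w v) * fv S 0 v
      rw [fv_eq]
      simp
    · show (0 : ℝ) = Real.sqrt (R j) * (0 : κ → ℝ) j
      simp⟩
  smul_mem' := by
    rintro c a ⟨y, rfl⟩
    refine ⟨c • y, ?_⟩
    funext k
    rcases k with v | j
    · show c * (Real.sqrt (w v) * fv S y v) = Real.sqrt (w v) * fv S (c • y) v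
      rw [fv_smul]
      ring
    · show c * (Real.sqrt (R j) * y j) = Real.sqrt (R j) * (c • y) j
      rw [Pi.smul_apply, smul_eq_mul]
      ring

theorem compl_sum {I : Type} [Fintype I] (X : Finset I) (G : I → ℝ) :
    ∑ i ∈ Xᶜ, G i = ∑ i, G i - ∑ i ∈ X, G i := by
  have := Finset.sum_add_sum_compl X G
  linarith

theorem st_step (hz : ST_SIGNZ) : Pool.Agent.Helper28.NF.ST_STEP := by
  intro β hβ hβ1
  obtain ⟨η, L, hη, hη1, hL, H⟩ := hz β hβ hβ1
  refine ⟨η, L, hη, hη1, hL, ?_⟩
  intro ι κ _ _ S E V c τ z R σ hEV hR hc hτ hσ hzv hlev hdom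
  obtain ⟨w, hw⟩ : ∃ w : ι → ℝ, w = fun v => if v ∈ E then 1 else if v ∈ V then c v ^ 2 else 0 :=
    ⟨_, rfl⟩
  rw [← hw] at hlev
  have hwE : ∀ v, v ∈ E → Real.sqrt (w v) = 1 := by
    intro v hv
    rw [hw]
    simp only [hv, if_true, Real.sqrt_one]
  have hwV : ∀ v, v ∈ V → Real.sqrt (w v) = c v := by
    intro v hv
    rw [hw]
    have h1 : v ∉ E := fun h => (Finset.disjoint_left.mp hEV h) hv
    simp only [hv, h1, if_true, if_false]
    exact Real.sqrt_sq (hc v)
  have hwN : ∀ v, v ∉ E → v ∉ V → Real.sqrt (w v) = 0 := by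
    intro v h1 h2
    rw [hw]
    simp only [h1, h2, if_false, Real.sqrt_zero]
  have hw0 : ∀ v, 0 ≤ w v := by
    intro v
    rw [hw]
    simp only
    split_ifs
    · exact zero_le_one
    · exact sq_nonneg _
    · exact le_refl _
  obtain ⟨P, hP, hfix, hcol⟩ := exists_proj (ranW S R w)
  obtain ⟨X, hX⟩ : ∃ X : Finset (ι ⊕ κ), X = E.map Function.Embedding.inl := ⟨_, rfl⟩
  obtain ⟨ξ, hξ, hH⟩ := H (ι ⊕ κ) P X (fun k => Sum.elim z (fun _ => 0) k) hP (by
      intro i hi
      rw [hX, Finset.mem_map] at hi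
      obtain ⟨u, hu, rfl⟩ := hi
      apply diag_le (ranW S R w) P hP hcol _ η hη.le
      rintro g ⟨y, rfl⟩
      have h1 : FF S R w y (Function.Embedding.inl u) = fv S y u := by
        show Real.sqrt (w u) * fv S y u = fv S y u
        rw [hwE u hu, one_mul]
      rw [h1]
      refine (fv_sq_le S R w hR hw0 u y).trans ?_
      exact mul_le_mul_of_nonneg_right (hlev u hu) (Finset.sum_nonneg (fun k _ => sq_nonneg _)))
    (by
      intro k
      rcases k with v | j
      · exact hzv v
      · simp)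
  have hkey : ∀ y : κ → ℝ, ∑ u ∈ E, (ξ (Sum.inl u) - z u) * fv S y u
      ≤ ∑ v ∈ V, (β * τ v + L * c v) * |fv S y v|
        + ∑ j, (β * σ j + L * Real.sqrt (R j)) * |y j| := by
    intro y
    have h1 := hH (FF S R w y) (hfix _ ⟨y, rfl⟩)
    rw [compl_sum] at h1
    have h3 : ∀ G : ι ⊕ κ → ℝ, ∑ i ∈ X, G i = ∑ u ∈ E, G (Sum.inl u) := by
      intro G
      rw [hX, Finset.sum_map]
      rfl
    have h4 : ∑ i, |FF S R w y i| = ∑ u ∈ E, |fv S y u| + ∑ v ∈ V, c v * |fv S y v|
        + ∑ j, Real.sqrt (R j) * |y j| := by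
      rw [Fintype.sum_sum_type]
      congr 1
      · have e1 : ∀ v, |FF S R w y (Sum.inl v)|
            = (if v ∈ E then |fv S y v| else 0) + (if v ∈ V then c v * |fv S y v| else 0) := by
          intro v
          show |Real.sqrt (w v) * fv S y v| = _
          rw [abs_mul, abs_of_nonneg (Real.sqrt_nonneg _)]
          by_cases h1 : v ∈ E
          · have h2 : v ∉ V := fun h => (Finset.disjoint_left.mp hEV h1) h
            rw [hwE v h1]
            simp [h1, h2]
          · by_cases h2 : v ∈ V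
            · rw [hwV v h2]
              simp [h1, h2]
            · rw [hwN v h1 h2]
              simp [h1, h2]
        rw [Finset.sum_congr rfl (fun v _ => e1 v), Finset.sum_add_distrib]
        rw [Finset.sum_ite_mem, Finset.sum_ite_mem, Finset.univ_inter, Finset.univ_inter]
      · apply Finset.sum_congr rfl
        intro j _
        show |Real.sqrt (R j) * y j| = _
        rw [abs_mul, abs_of_nonneg (Real.sqrt_nonneg _)]
    have h5 : ∑ i ∈ X, |FF S R w y i| = ∑ u ∈ E, |fv S y u| := by
      rw [h3]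
      apply Finset.sum_congr rfl
      intro u hu
      show |Real.sqrt (w u) * fv S y u| = _
      rw [hwE u hu, one_mul]
    have h6 : ∑ i ∈ X, (ξ i - Sum.elim z (fun _ => 0) i) * FF S R w y i
        = ∑ u ∈ E, (ξ (Sum.inl u) - z u) * fv S y u := by
      rw [h3]
      apply Finset.sum_congr rfl
      intro u hu
      show (ξ (Sum.inl u) - z u) * (Real.sqrt (w u) * fv S y u) = _
      rw [hwE u hu, one_mul]
    have h7 := hdom y
    have e1 : ∑ v ∈ V, (β * τ v + L * c v) * |fv S y v|
        = β * ∑ v ∈ V, τ v * |fv S y v| + L * ∑ v ∈ V, c v * |fv S y v| := by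
      rw [Finset.mul_sum, Finset.mul_sum, ← Finset.sum_add_distrib]
      apply Finset.sum_congr rfl
      intro v _
      ring
    have e2 : ∑ j, (β * σ j + L * Real.sqrt (R j)) * |y j|
        = β * ∑ j, σ j * |y j| + L * ∑ j, Real.sqrt (R j) * |y j| := by
      rw [Finset.mul_sum, Finset.mul_sum, ← Finset.sum_add_distrib]
      apply Finset.sum_congr rfl
      intro j _
      ring
    rw [h4, h5] at h1
    rw [h6] at h1
    rw [e1, e2]
    nlinarith
  obtain ⟨δ, hδ, hρ⟩ := Pool.Agent.Helper92.NF.cert_exists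
    (fun (j : κ) (v : ι) => if v ∈ S j ∩ V then (1 : ℝ) else 0)
    (fun j => ∑ v ∈ S j ∩ E, (ξ (Sum.inl v) - z v))
    (fun v => β * τ v + L * c v) (fun j => β * σ j + L * Real.sqrt (R j))
    (fun v => by
      have h1 := hτ v
      have h2 := hc v
      have h3 : 0 ≤ L := by linarith
      positivity)
    (fun j => by
      have h1 := hσ j
      have h3 : 0 ≤ L := by linarith
      positivity)
    (by
      intro y
      have h1 := hkey y
      have e1 : ∑ j, (∑ v ∈ S j ∩ E, (ξ (Sum.inl v) - z v)) * y j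
          = ∑ u ∈ E, (ξ (Sum.inl u) - z u) * fv S y u := by
        have e2 : ∀ j, (∑ v ∈ S j ∩ E, (ξ (Sum.inl v) - z v)) * y j
            = ∑ v ∈ E, (ξ (Sum.inl v) - z v) * ((if v ∈ S j then 1 else 0) * y j) := by
          intro j
          rw [Finset.inter_comm, ← Finset.sum_ite_mem, Finset.sum_mul]
          apply Finset.sum_congr rfl
          intro v _
          by_cases h : v ∈ S j <;> simp [h]
        rw [Finset.sum_congr rfl (fun j _ => e2 j), Finset.sum_comm]
        apply Finset.sum_congr rfl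
        intro v _
        rw [fv_eq, Finset.mul_sum]
      have e3 : ∑ v, (β * τ v + L * c v) * |∑ j, (if v ∈ S j ∩ V then (1 : ℝ) else 0) * y j|
          = ∑ v ∈ V, (β * τ v + L * c v) * |fv S y v| := by
        rw [← Finset.sum_subset (Finset.subset_univ V)]
        · apply Finset.sum_congr rfl
          intro v hv
          congr 2
          rw [fv_eq]
          apply Finset.sum_congr rfl
          intro j _
          by_cases h : v ∈ S j <;> simp [h, hv]
        · intro v _ hv
          have : ∑ j, (if v ∈ S j ∩ V then (1 : ℝ) else 0) * y j = 0 := by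
            apply Finset.sum_eq_zero
            intro j _
            simp [hv]
          rw [this]
          simp
      rw [e1, e3]
      exact h1)
  refine ⟨fun v => ξ (Sum.inl v), δ,
    fun j => ∑ v ∈ S j ∩ E, (ξ (Sum.inl v) - z v) - ∑ v ∈ S j ∩ V, δ v,
    fun v => hξ (Sum.inl v), hδ, fun j => ?_, fun j => ?_⟩
  · have h1 := hρ j
    have e1 : ∑ v, (if v ∈ S j ∩ V then (1 : ℝ) else 0) * δ v = ∑ v ∈ S j ∩ V, δ v := by
      have e2 : ∀ v, (if v ∈ S j ∩ V then (1 : ℝ) else 0) * δ v
          = if v ∈ S j ∩ V then δ v else 0 := by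
        intro v
        split_ifs <;> simp
      rw [Finset.sum_congr rfl (fun v _ => e2 v), Finset.sum_ite_mem, Finset.univ_inter]
    rw [e1] at h1
    exact h1
  · ring

end

end Pool.Agent.Helper61.NF
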